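import Mathlib

open Set Filter Topology

namespace Pool.Agent.X19.MG

lemma comp_top {I : Set ℝ} (hI : IsOpen I) (hIc : I.OrdConnected) {γ : ℝ → ℝ × ℝ}
    (hγ : ContinuousOn γ I) {Ω : Set (ℝ × ℝ)} (hΩ : IsOpen Ω) {s0 : ℝ} (hs0 : s0 ∈ I)
    (hs0' : γ s0 ∈ Ω) {q : ℝ × ℝ} (hq : q ∈ Ω)
    (h : Tendsto (fun s : ↥(connectedComponentIn (I ∩ γ ⁻¹' Ω) s0) => γ s) atTop (𝓝 q)) :
    Tendsto (fun s : I => γ s) atTop (𝓝 q) := by
  set U := I ∩ γ ⁻¹' Ω with hUdef
  have hU : IsOpen U := hγ.isOpen_inter_preimage hI hΩ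
  set J := connectedComponentIn U s0 with hJdef
  have hJo : IsOpen J := hU.connectedComponentIn
  have hJs : s0 ∈ J := mem_connectedComponentIn ⟨hs0, hs0'⟩
  have hJU : J ⊆ U := connectedComponentIn_subset _ _
  have hJp : IsPreconnected J := isPreconnected_connectedComponentIn
  have hJc : J.OrdConnected := hJp.ordConnected
  have : Nonempty J := ⟨⟨s0, hJs⟩⟩
  have : Nonempty I := ⟨⟨s0, hs0⟩⟩
  by_cases hcof : ∀ b ∈ I, ∃ j ∈ J, b ≤ j
  · intro N hN
    have hN' := h hN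
    rw [mem_map, mem_atTop_sets] at hN'
    obtain ⟨a, ha⟩ := hN'
    rw [mem_map, mem_atTop_sets]
    refine ⟨⟨a, (hJU a.2).1⟩, fun s hs => ?_⟩
    obtain ⟨j, hj, hsj⟩ := hcof s s.2
    have hsJ : (s : ℝ) ∈ J := hJc.out a.2 hj ⟨hs, hsj⟩
    exact ha ⟨s, hsJ⟩ hs
  · exfalso
    push Not at hcof
    obtain ⟨b, hb, hJb⟩ := hcof
    have hbdd : BddAbove J := ⟨b, fun j hj => (hJb j hj).le⟩
    have hlub : IsLUB J (sSup J) := isLUB_csSup ⟨s0, hJs⟩ hbdd
    set b0 := sSup J with hb0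
    have hb0I : b0 ∈ I := hIc.out hs0 hb ⟨hlub.1 hJs, hlub.2 fun j hj => (hJb j hj).le⟩
    have ht : Tendsto (fun s : J => (s : ℝ)) atTop (𝓝 b0) := by
      have hl2 : IsLUB (range fun s : J => (s : ℝ)) b0 := by
        rw [Subtype.range_coe]
        exact hlub
      exact tendsto_atTop_isLUB (f := fun s : J => (s : ℝ)) (fun a b hab => hab) hl2
    have hc : ContinuousAt γ b0 := hγ.continuousAt (hI.mem_nhds hb0I)
    have ht2 : Tendsto (fun s : J => γ s) atTop (𝓝 (γ b0)) := hc.tendsto.comp ht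
    have hq2 : q = γ b0 := tendsto_nhds_unique h ht2
    have hb0U : b0 ∈ U := ⟨hb0I, by rw [mem_preimage, ← hq2]; exact hq⟩
    have hcl : b0 ∈ closure J := mem_closure_of_tendsto ht (Eventually.of_forall fun s => s.2)
    have hpre : IsPreconnected (insert b0 J) :=
      hJp.subset_closure (subset_insert _ _) (insert_subset hcl subset_closure)
    have hsub : insert b0 J ⊆ J :=
      hpre.subset_connectedComponentIn (mem_insert_of_mem _ hJs) (insert_subset hb0U hJU)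
    have hb0J : b0 ∈ J := hsub (mem_insert _ _)
    obtain ⟨ε, hε, hball⟩ := Metric.isOpen_iff.1 hJo b0 hb0J
    have : b0 + ε / 2 ∈ J := by
      apply hball
      rw [Metric.mem_ball, Real.dist_eq, add_sub_cancel_left, abs_of_pos (by linarith)]
      linarith
    have := hlub.1 this
    linarith

lemma comp_bot {I : Set ℝ} (hI : IsOpen I) (hIc : I.OrdConnected) {γ : ℝ → ℝ × ℝ}
    (hγ : ContinuousOn γ I) {Ω : Set (ℝ × ℝ)} (hΩ : IsOpen Ω) {s0 : ℝ} (hs0 : s0 ∈ I)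
    (hs0' : γ s0 ∈ Ω) {q : ℝ × ℝ} (hq : q ∈ Ω)
    (h : Tendsto (fun s : ↥(connectedComponentIn (I ∩ γ ⁻¹' Ω) s0) => γ s) atBot (𝓝 q)) :
    Tendsto (fun s : I => γ s) atBot (𝓝 q) := by
  set U := I ∩ γ ⁻¹' Ω with hUdef
  have hU : IsOpen U := hγ.isOpen_inter_preimage hI hΩ
  set J := connectedComponentIn U s0 with hJdef
  have hJo : IsOpen J := hU.connectedComponentIn
  have hJs : s0 ∈ J := mem_connectedComponentIn ⟨hs0, hs0'⟩
  have hJU : J ⊆ U := connectedComponentIn_subset _ _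
  have hJp : IsPreconnected J := isPreconnected_connectedComponentIn
  have hJc : J.OrdConnected := hJp.ordConnected
  have : Nonempty J := ⟨⟨s0, hJs⟩⟩
  have : Nonempty I := ⟨⟨s0, hs0⟩⟩
  by_cases hcof : ∀ b ∈ I, ∃ j ∈ J, j ≤ b
  · intro N hN
    have hN' := h hN
    rw [mem_map, mem_atBot_sets] at hN'
    obtain ⟨a, ha⟩ := hN'
    rw [mem_map, mem_atBot_sets]
    refine ⟨⟨a, (hJU a.2).1⟩, fun s hs => ?_⟩
    obtain ⟨j, hj, hsj⟩ := hcof s s.2
    have hsJ : (s : ℝ) ∈ J := hJc.out hj a.2 ⟨hsj, hs⟩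
    exact ha ⟨s, hsJ⟩ hs
  · exfalso
    push Not at hcof
    obtain ⟨b, hb, hJb⟩ := hcof
    have hbdd : BddBelow J := ⟨b, fun j hj => (hJb j hj).le⟩
    have hlub : IsGLB J (sInf J) := isGLB_csInf ⟨s0, hJs⟩ hbdd
    set b0 := sInf J with hb0
    have hb0I : b0 ∈ I := hIc.out hb hs0 ⟨hlub.2 fun j hj => (hJb j hj).le, hlub.1 hJs⟩
    have ht : Tendsto (fun s : J => (s : ℝ)) atBot (𝓝 b0) := by
      have hl2 : IsGLB (range fun s : J => (s : ℝ)) b0 := by
        rw [Subtype.range_coe]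
        exact hlub
      exact tendsto_atBot_isGLB (f := fun s : J => (s : ℝ)) (fun a b hab => hab) hl2
    have hc : ContinuousAt γ b0 := hγ.continuousAt (hI.mem_nhds hb0I)
    have ht2 : Tendsto (fun s : J => γ s) atBot (𝓝 (γ b0)) := hc.tendsto.comp ht
    have hq2 : q = γ b0 := tendsto_nhds_unique h ht2
    have hb0U : b0 ∈ U := ⟨hb0I, by rw [mem_preimage, ← hq2]; exact hq⟩
    have hcl : b0 ∈ closure J := mem_closure_of_tendsto ht (Eventually.of_forall fun s => s.2)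
    have hpre : IsPreconnected (insert b0 J) :=
      hJp.subset_closure (subset_insert _ _) (insert_subset hcl subset_closure)
    have hsub : insert b0 J ⊆ J :=
      hpre.subset_connectedComponentIn (mem_insert_of_mem _ hJs) (insert_subset hb0U hJU)
    have hb0J : b0 ∈ J := hsub (mem_insert _ _)
    obtain ⟨ε, hε, hball⟩ := Metric.isOpen_iff.1 hJo b0 hb0J
    have : b0 - ε / 2 ∈ J := by
      apply hball
      rw [Metric.mem_ball, Real.dist_eq, sub_sub_cancel_left, abs_neg, abs_of_pos (by linarith)]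
      linarith
    have := hlub.1 this
    linarith

end Pool.Agent.X19.MG
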