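import Mathlib

open Set Filter Topology Matrix
open scoped ContDiff

namespace Pool.Agent.X19.MG

/-- `∂_t F` (points are `(t, x)`). -/
noncomputable def dt (F : ℝ × ℝ → ℝ) (p : ℝ × ℝ) : ℝ := fderiv ℝ F p (1, 0)

/-- `∂_x F`. -/
noncomputable def dx (F : ℝ × ℝ → ℝ) (p : ℝ × ℝ) : ℝ := fderiv ℝ F p (0, 1)

/-- `Psi = ∂_t Phi - 2 ∂_x Phi`. -/
noncomputable def Psi (Φ : ℝ × ℝ → ℝ) (p : ℝ × ℝ) : ℝ := dt Φ p - 2 * dx Φ p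

/-- the inverse acoustical metric at a point where `Psi` has the value `ψ`. -/
noncomputable def gInv (ψ : ℝ) : Matrix (Fin 2) (Fin 2) ℝ := !![-1, -ψ / 2; -ψ / 2, 2 * (2 + ψ)]

/-- the acoustical metric `g`. -/
noncomputable def gMat (ψ : ℝ) : Matrix (Fin 2) (Fin 2) ℝ := (gInv ψ)⁻¹

/-- `v` is a causal vector: `v ≠ 0` and `g(v, v) ≤ 0`. -/
def Causal (ψ : ℝ) (v : ℝ × ℝ) : Prop :=
  v ≠ 0 ∧ ![v.1, v.2] ⬝ᵥ (gMat ψ *ᵥ ![v.1, v.2]) ≤ 0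

/-- `γ`, defined on the open interval `I` with derivative `γ'`, is an inextendible causal `C^1`
curve of `(Ω, g(Psi))`. -/
structure InextCausal (Ω : Set (ℝ × ℝ)) (Φ : ℝ × ℝ → ℝ) (I : Set ℝ) (γ γ' : ℝ → ℝ × ℝ) : Prop where
  isOpen : IsOpen I
  ordConn : I.OrdConnected
  nonempty : I.Nonempty
  mem : ∀ s ∈ I, γ s ∈ Ω
  deriv : ∀ s ∈ I, HasDerivAt γ (γ' s) s
  cont : ContinuousOn γ' I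
  causal : ∀ s ∈ I, Causal (Psi Φ (γ s)) (γ' s)
  noTop : ¬ ∃ p ∈ Ω, Tendsto (fun s : I => γ s) atTop (𝓝 p)
  noBot : ¬ ∃ p ∈ Ω, Tendsto (fun s : I => γ s) atBot (𝓝 p)

/-- `(Ω, Φ)` is a globally hyperbolic development of the data `(φ0, φ1)`. -/
structure IsGHD (φ0 φ1 : ℝ → ℝ) (Ω : Set (ℝ × ℝ)) (Φ : ℝ × ℝ → ℝ) : Prop where
  isOpen : IsOpen Ω
  init : ∀ x : ℝ, ((0 : ℝ), x) ∈ Ω
  smooth : ContDiffOn ℝ ∞ Φ Ω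
  eqn : ∀ p ∈ Ω, - dt (dt Φ) p - Psi Φ p * dt (dx Φ) p + 2 * (2 + Psi Φ p) * dx (dx Φ) p = 0
  nondeg : ∀ p ∈ Ω, Psi Φ p ≠ -4
  data0 : ∀ x : ℝ, Φ (0, x) = φ0 x
  data1 : ∀ x : ℝ, dt Φ (0, x) = φ1 x
  cauchy : ∀ (I : Set ℝ) (γ γ' : ℝ → ℝ × ℝ), InextCausal Ω Φ I γ γ' →
    ∃! s : ℝ, s ∈ I ∧ (γ s).1 = 0

/-- maximal globally hyperbolic development: a GHD without proper extension to a GHD. -/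
def IsMGHD (φ0 φ1 : ℝ → ℝ) (Ω : Set (ℝ × ℝ)) (Φ : ℝ × ℝ → ℝ) : Prop :=
  IsGHD φ0 φ1 Ω Φ ∧ ∀ (Ω' : Set (ℝ × ℝ)) (Φ' : ℝ × ℝ → ℝ), IsGHD φ0 φ1 Ω' Φ' → Ω ⊆ Ω' →
    EqOn Φ' Φ Ω → Ω' = Ω

end Pool.Agent.X19.MG
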