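import Mathlib
import Pool.Agent.X19.MG.Defs
import Pool.Agent.X19.MG.Comp

open Set Filter Topology Matrix
open scoped ContDiff

namespace Pool.Agent.X19.MG

lemma causal_iff {ψ : ℝ} (hψ : ψ ≠ -4) (v : ℝ × ℝ) :
    Causal ψ v ↔ v ≠ 0 ∧ (v.2 + 2 * v.1) * (v.2 - (2 + ψ) * v.1) ≤ 0 := by
  unfold Causal
  have h4 : ψ + 4 ≠ 0 := fun h => hψ (by linarith)
  have hdet : (gInv ψ).det = -((ψ + 4) ^ 2) / 4 := by
    rw [gInv, det_fin_two_of]; ring
  have hq : ![v.1, v.2] ⬝ᵥ (gMat ψ *ᵥ ![v.1, v.2]) =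
      4 / (ψ + 4) ^ 2 * ((v.2 + 2 * v.1) * (v.2 - (2 + ψ) * v.1)) := by
    unfold gMat
    rw [inv_def, hdet, gInv, adjugate_fin_two_of]
    simp only [smul_of, smul_cons, Matrix.smul_empty, mulVec, dotProduct, Fin.sum_univ_two, cons_val_zero,
      cons_val_one, of_apply, smul_eq_mul, Ring.inverse_eq_inv']
    field_simp
    ring
  rw [hq]
  have hpos : 0 < 4 / (ψ + 4) ^ 2 := by positivity
  constructor
  · rintro ⟨h1, h2⟩
    refine ⟨h1, ?_⟩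
    by_contra h3
    push Not at h3
    have := mul_pos hpos h3
    linarith
  · rintro ⟨h1, h2⟩
    exact ⟨h1, mul_nonpos_of_nonneg_of_nonpos hpos.le h2⟩

section
variable {φ0 φ1 : ℝ → ℝ} {Ω : Set (ℝ × ℝ)} {Φ : ℝ × ℝ → ℝ}

lemma fd_smooth (h : IsGHD φ0 φ1 Ω Φ) : ContDiffOn ℝ ∞ (fderiv ℝ Φ) Ω :=
  h.smooth.fderiv_of_isOpen h.isOpen (by simp)

lemma fd_diff (h : IsGHD φ0 φ1 Ω Φ) {p : ℝ × ℝ} (hp : p ∈ Ω) :
    DifferentiableAt ℝ (fderiv ℝ Φ) p :=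
  ((fd_smooth h).contDiffAt (h.isOpen.mem_nhds hp)).differentiableAt (by simp)

lemma hasFD_apply (h : IsGHD φ0 φ1 Ω Φ) {p : ℝ × ℝ} (hp : p ∈ Ω) (w : ℝ × ℝ) :
    HasFDerivAt (fun q => fderiv ℝ Φ q w)
      ((ContinuousLinearMap.apply ℝ ℝ w).comp (fderiv ℝ (fderiv ℝ Φ) p)) p :=
  (ContinuousLinearMap.apply ℝ ℝ w).hasFDerivAt.comp p (fd_diff h hp).hasFDerivAt

lemma psi_hasFD (h : IsGHD φ0 φ1 Ω Φ) {p : ℝ × ℝ} (hp : p ∈ Ω) :
    HasFDerivAt (Psi Φ)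
      ((ContinuousLinearMap.apply ℝ ℝ ((1, 0) : ℝ × ℝ)).comp (fderiv ℝ (fderiv ℝ Φ) p) -
      (2:ℝ) • (ContinuousLinearMap.apply ℝ ℝ ((0, 1) : ℝ × ℝ)).comp
        (fderiv ℝ (fderiv ℝ Φ) p)) p := by
  have h1 := hasFD_apply h hp (1, 0)
  have h2 := (hasFD_apply h hp (0, 1)).const_smul (2:ℝ)
  exact h1.sub h2

lemma psi_cont (h : IsGHD φ0 φ1 Ω Φ) : ContinuousOn (Psi Φ) Ω := fun p hp =>
  (psi_hasFD h hp).continuousAt.continuousWithinAt

lemma symm2 (h : IsGHD φ0 φ1 Ω Φ) {p : ℝ × ℝ} (hp : p ∈ Ω) (v w : ℝ × ℝ) :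
    fderiv ℝ (fderiv ℝ Φ) p v w = fderiv ℝ (fderiv ℝ Φ) p w v := by
  have h1 : ContDiffAt ℝ ∞ Φ p := h.smooth.contDiffAt (h.isOpen.mem_nhds hp)
  have h2 : minSmoothness ℝ 2 ≤ (∞ : WithTop ℕ∞) := by
    rw [minSmoothness_of_isRCLikeNormedField]
    show ((2 : ℕ∞) : WithTop ℕ∞) ≤ ((⊤ : ℕ∞) : WithTop ℕ∞)
    exact WithTop.coe_le_coe.2 le_top
  exact (h1.isSymmSndFDerivAt h2).eq v w

/-- Burgers' equation: derivative of `Psi` in the direction `(T, c T)`. -/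
lemma psi_dir (h : IsGHD φ0 φ1 Ω Φ) {p : ℝ × ℝ} (hp : p ∈ Ω) (T c : ℝ) :
    fderiv ℝ (Psi Φ) p (T, c * T) = T * (c - (2 + Psi Φ p)) * dx (Psi Φ) p := by
  have hfd := (psi_hasFD h hp).fderiv
  have e := h.eqn p hp
  have s := symm2 h hp (1, 0) (0, 1)
  unfold dx dt at e
  unfold dx
  have a1 : fderiv ℝ (fun q => fderiv ℝ Φ q (1, 0)) p (1, 0) =
      fderiv ℝ (fderiv ℝ Φ) p (1, 0) (1, 0) := by
    rw [(hasFD_apply h hp (1, 0)).fderiv]; rfl
  have a2 : fderiv ℝ (fun q => fderiv ℝ Φ q (0, 1)) p (1, 0) =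
      fderiv ℝ (fderiv ℝ Φ) p (1, 0) (0, 1) := by
    rw [(hasFD_apply h hp (0, 1)).fderiv]; rfl
  have a3 : fderiv ℝ (fun q => fderiv ℝ Φ q (0, 1)) p (0, 1) =
      fderiv ℝ (fderiv ℝ Φ) p (0, 1) (0, 1) := by
    rw [(hasFD_apply h hp (0, 1)).fderiv]; rfl
  rw [a1, a2, a3] at e
  rw [hfd]
  have ev : ((T, c * T) : ℝ × ℝ) = T • (1, 0) + (c * T) • (0, 1) := by
    ext <;> simp
  rw [ev, map_add, map_smul, map_smul]
  simp only [_root_.sub_apply, _root_.smul_apply, ContinuousLinearMap.comp_apply,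
    ContinuousLinearMap.apply_apply, smul_eq_mul]
  rw [s] at e ⊢
  linear_combination (-T) * e

/-- `Psi` is constant along its characteristics. -/
lemma psi_const (h : IsGHD φ0 φ1 Ω Φ) {p : ℝ × ℝ} {T c : ℝ} (hc : c = 2 + Psi Φ p)
    (hseg : ∀ s ∈ Icc (0:ℝ) 1, p + s • ((T, c * T) : ℝ × ℝ) ∈ Ω) :
    ∀ s ∈ Icc (0:ℝ) 1, Psi Φ (p + s • ((T, c * T) : ℝ × ℝ)) = Psi Φ p := by
  set w : ℝ × ℝ := (T, c * T) with hw
  have hline : ∀ s : ℝ, HasDerivAt (fun s : ℝ => p + s • w) w s := fun s => by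
    simpa using ((hasDerivAt_id s).smul_const w).const_add p
  have hderiv : ∀ s ∈ Icc (0:ℝ) 1, HasDerivAt (fun s => Psi Φ (p + s • w) - Psi Φ p)
      (-(T * dx (Psi Φ) (p + s • w)) * (Psi Φ (p + s • w) - Psi Φ p)) s := by
    intro s hs
    have h1 := (psi_hasFD h (hseg s hs)).differentiableAt.hasFDerivAt
    have h2 := (h1.comp_hasDerivAt s (hline s)).sub_const (Psi Φ p)
    rw [hw, psi_dir h (hseg s hs)] at h2
    have e : T * (c - (2 + Psi Φ (p + s • w))) * dx (Psi Φ) (p + s • w) =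
        -(T * dx (Psi Φ) (p + s • w)) * (Psi Φ (p + s • w) - Psi Φ p) := by
      rw [hc]; ring
    rw [← hw] at h2
    rw [e] at h2
    exact h2
  have hdxc : ContinuousOn (dx (Psi Φ)) Ω := by
    have h3 : ∀ q ∈ Ω, dx (Psi Φ) q = fderiv ℝ (fderiv ℝ Φ) q (0, 1) (1, 0) -
        2 * fderiv ℝ (fderiv ℝ Φ) q (0, 1) (0, 1) := by
      intro q hq
      unfold dx
      rw [(psi_hasFD h hq).fderiv]
      rfl
    have h4 : ContinuousOn (fderiv ℝ (fderiv ℝ Φ)) Ω :=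
      (fd_smooth h).continuousOn_fderiv_of_isOpen h.isOpen (by simp)
    have h5 : ContinuousOn (fun q => fderiv ℝ (fderiv ℝ Φ) q (0, 1) (1, 0) -
        2 * fderiv ℝ (fderiv ℝ Φ) q (0, 1) (0, 1)) Ω := by fun_prop
    exact h5.congr h3
  have hcomp : ContinuousOn (fun s : ℝ => T * dx (Psi Φ) (p + s • w)) (Icc 0 1) := by
    apply continuousOn_const.mul
    apply hdxc.comp (by fun_prop)
    intro s hs
    exact hseg s hs
  obtain ⟨K, hK⟩ := isCompact_Icc.exists_bound_of_continuousOn hcomp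
  have hz := eq_zero_of_abs_deriv_le_mul_abs_self_of_eq_zero_right
    (f := fun s => Psi Φ (p + s • w) - Psi Φ p)
    (f' := fun s => -(T * dx (Psi Φ) (p + s • w)) * (Psi Φ (p + s • w) - Psi Φ p))
    (K := K) (a := 0) (b := 1)
    (fun s hs => (hderiv s hs).continuousAt.continuousWithinAt)
    (fun s hs => (hderiv s ⟨hs.1, hs.2.le⟩).hasDerivWithinAt)
    (by simp)
    (fun s hs => by
      rw [norm_mul, norm_neg]
      exact mul_le_mul_of_nonneg_right (hK s ⟨hs.1, hs.2.le⟩) (norm_nonneg _))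
  intro s hs
  have h9 : Psi Φ (p + s • w) - Psi Φ p = 0 := hz s hs
  linarith

/-- null lines reach `t = 0`. -/
lemma null_line (h : IsGHD φ0 φ1 Ω Φ) {p : ℝ × ℝ} (hp : p ∈ Ω) (c : ℝ)
    (hc : ∀ s : ℝ, (∀ θ ∈ Icc (0:ℝ) 1, p + θ • ((s, c * s) : ℝ × ℝ) ∈ Ω) →
      (c + 2) * (c - (2 + Psi Φ (p + ((s, c * s) : ℝ × ℝ)))) ≤ 0) :
    ∀ θ ∈ Icc (0:ℝ) 1, p + θ • ((-p.1, c * (-p.1)) : ℝ × ℝ) ∈ Ω := by
  set l : ℝ → ℝ × ℝ := fun s => p + s • ((1, c) : ℝ × ℝ) with hl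
  have hlc : Continuous l := by fun_prop
  have hl0 : l 0 = p := by simp [hl]
  set J := connectedComponentIn (univ ∩ l ⁻¹' Ω) 0 with hJ
  have hUo : IsOpen (univ ∩ l ⁻¹' Ω) := by
    rw [univ_inter]; exact h.isOpen.preimage hlc
  have hJo : IsOpen J := hUo.connectedComponentIn
  have hJs : (0:ℝ) ∈ J := mem_connectedComponentIn ⟨mem_univ _, by rw [mem_preimage, hl0]; exact hp⟩
  have hJU : J ⊆ univ ∩ l ⁻¹' Ω := connectedComponentIn_subset _ _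
  have hJp : IsPreconnected J := isPreconnected_connectedComponentIn
  have hJc : J.OrdConnected := hJp.ordConnected
  have hl' : ∀ s, HasDerivAt l (1, c) s := fun s => by
    have h1 := ((hasDerivAt_id s).smul_const ((1, c) : ℝ × ℝ)).const_add p
    rw [one_smul] at h1
    exact h1
  have hseg : ∀ s ∈ J, ∀ θ ∈ Icc (0:ℝ) 1, θ * s ∈ J := by
    intro s hs θ hθ
    rcases le_total 0 s with h0 | h0
    · exact hJc.out hJs hs ⟨mul_nonneg hθ.1 h0, by nlinarith [hθ.2]⟩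
    · exact hJc.out hs hJs ⟨by nlinarith [hθ.2], mul_nonpos_of_nonneg_of_nonpos hθ.1 h0⟩
  have hls : ∀ θ s : ℝ, l (θ * s) = p + θ • ((s, c * s) : ℝ × ℝ) := by
    intro θ s
    simp only [hl]
    ext
    · simp
    · simp; ring
  have hcur : InextCausal Ω Φ J l (fun _ => (1, c)) := by
    refine ⟨hJo, hJc, ⟨0, hJs⟩, fun s hs => (hJU hs).2, fun s _ => hl' s, continuousOn_const, ?_,
      ?_, ?_⟩
    · intro s hs
      have hls1 : l s = p + ((s, c * s) : ℝ × ℝ) := by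
        have := hls 1 s
        rwa [one_mul, one_smul] at this
      rw [causal_iff (h.nondeg _ (hJU hs).2)]
      refine ⟨by simp, ?_⟩
      have := hc s (fun θ hθ => by
        rw [← hls θ s]
        exact (hJU (hseg s hs θ hθ)).2)
      rw [hls1]
      simpa using this
    · rintro ⟨q, hq, ht⟩
      have ht2 := comp_top isOpen_univ ordConnected_univ hlc.continuousOn h.isOpen (mem_univ 0)
        (by rw [hl0]; exact hp) hq ht
      have ht3 : Tendsto (fun s : (univ : Set ℝ) => (l s).1) atTop (𝓝 q.1) :=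
        (continuous_fst.tendsto q).comp ht2
      have hev := ht3.eventually (Metric.ball_mem_nhds q.1 one_pos)
      rw [eventually_atTop] at hev
      obtain ⟨a, ha⟩ := hev
      have hb := ha ⟨max a (q.1 - p.1 + 2), mem_univ _⟩ (Subtype.coe_le_coe.1 (le_max_left _ _))
      rw [Real.dist_eq, abs_lt] at hb
      have h1 : (l (max (a:ℝ) (q.1 - p.1 + 2))).1 = p.1 + max (a:ℝ) (q.1 - p.1 + 2) := by
        simp [hl]
      have h2 := le_max_right (a:ℝ) (q.1 - p.1 + 2)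
      rw [h1] at hb
      linarith [hb.2]
    · rintro ⟨q, hq, ht⟩
      have ht2 := comp_bot isOpen_univ ordConnected_univ hlc.continuousOn h.isOpen (mem_univ 0)
        (by rw [hl0]; exact hp) hq ht
      have ht3 : Tendsto (fun s : (univ : Set ℝ) => (l s).1) atBot (𝓝 q.1) :=
        (continuous_fst.tendsto q).comp ht2
      have hev := ht3.eventually (Metric.ball_mem_nhds q.1 one_pos)
      rw [eventually_atBot] at hev
      obtain ⟨a, ha⟩ := hev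
      have hb := ha ⟨min a (q.1 - p.1 - 2), mem_univ _⟩ (Subtype.coe_le_coe.1 (min_le_left _ _))
      rw [Real.dist_eq, abs_lt] at hb
      have h1 : (l (min (a:ℝ) (q.1 - p.1 - 2))).1 = p.1 + min (a:ℝ) (q.1 - p.1 - 2) := by
        simp [hl]
      have h2 := min_le_right (a:ℝ) (q.1 - p.1 - 2)
      rw [h1] at hb
      linarith [hb.1]
  obtain ⟨s, ⟨hsJ, hs0⟩, -⟩ := h.cauchy J l _ hcur
  have hs : s = -p.1 := by
    have : (l s).1 = p.1 + s := by simp [hl]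
    rw [this] at hs0
    linarith
  intro θ hθ
  rw [← hs, ← hls]
  exact (hJU (hseg s hsJ θ hθ)).2

/-- the null line of slope `-2` reaches `t = 0`. -/
lemma line_two (h : IsGHD φ0 φ1 Ω Φ) {p : ℝ × ℝ} (hp : p ∈ Ω) :
    ∀ θ ∈ Icc (0:ℝ) 1, p + θ • ((-p.1, (-2) * (-p.1)) : ℝ × ℝ) ∈ Ω :=
  null_line h hp (-2) (fun s _ => by norm_num)

/-- the characteristic through `p` reaches `t = 0`. -/
lemma line_psi (h : IsGHD φ0 φ1 Ω Φ) {p : ℝ × ℝ} (hp : p ∈ Ω) :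
    ∀ θ ∈ Icc (0:ℝ) 1, p + θ • ((-p.1, (2 + Psi Φ p) * (-p.1)) : ℝ × ℝ) ∈ Ω :=
  null_line h hp (2 + Psi Φ p) (fun s hs => by
    have := psi_const h rfl hs 1 ⟨zero_le_one, le_rfl⟩
    rw [one_smul] at this
    rw [this]
    simp)

/-- the triangle lemma. -/
lemma triangle (h : IsGHD φ0 φ1 Ω Φ) {p : ℝ × ℝ} (hp : p ∈ Ω) {c θ : ℝ}
    (hθ : θ ∈ Icc (0:ℝ) 1) (hc : c + 2 = θ * (4 + Psi Φ p)) :
    ∀ σ ∈ Icc (0:ℝ) 1, p + σ • ((-p.1, c * (-p.1)) : ℝ × ℝ) ∈ Ω := by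
  intro σ hσ
  set r : ℝ → ℝ × ℝ := fun ρ => p + ρ • ((-p.1, (-2) * (-p.1)) : ℝ × ℝ) with hr
  have hrΩ : ∀ ρ ∈ Icc (0:ℝ) 1, r ρ ∈ Ω := line_two h hp
  have hrc : Continuous r := by fun_prop
  set cc : ℝ → ℝ := fun ρ => 2 + Psi Φ (r ρ) with hcc
  have hccc : ContinuousOn cc (Icc 0 1) :=
    continuousOn_const.add ((psi_cont h).comp hrc.continuousOn hrΩ)
  set H : ℝ → ℝ := fun ρ => σ * c + 2 * ρ - (σ - ρ) * cc ρ with hH
  have hHc : ContinuousOn H (Icc 0 σ) := by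
    have : ContinuousOn cc (Icc 0 σ) := hccc.mono (Icc_subset_Icc le_rfl hσ.2)
    fun_prop
  have hr0 : r 0 = p := by simp [hr]
  have hH0 : H 0 = -(σ * (1 - θ) * (4 + Psi Φ p)) := by
    simp only [hH, hcc, hr0]; linear_combination σ * hc
  have hHσ : H σ = σ * θ * (4 + Psi Φ p) := by
    simp only [hH]; linear_combination σ * hc
  have hex : ∃ ρ ∈ Icc 0 σ, H ρ = 0 := by
    rcases le_total 0 (4 + Psi Φ p) with h4 | h4
    · have : (0:ℝ) ∈ Icc (H 0) (H σ) := by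
        rw [hH0, hHσ]
        have a1 : 0 ≤ σ * (1 - θ) * (4 + Psi Φ p) :=
          mul_nonneg (mul_nonneg hσ.1 (by linarith [hθ.2])) h4
        have a2 : 0 ≤ σ * θ * (4 + Psi Φ p) := mul_nonneg (mul_nonneg hσ.1 hθ.1) h4
        exact ⟨by linarith, a2⟩
      exact intermediate_value_Icc hσ.1 hHc this
    · have : (0:ℝ) ∈ Icc (H σ) (H 0) := by
        rw [hH0, hHσ]
        have a1 : σ * (1 - θ) * (4 + Psi Φ p) ≤ 0 :=
          mul_nonpos_of_nonneg_of_nonpos (mul_nonneg hσ.1 (by linarith [hθ.2])) h4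
        have a2 : σ * θ * (4 + Psi Φ p) ≤ 0 :=
          mul_nonpos_of_nonneg_of_nonpos (mul_nonneg hσ.1 hθ.1) h4
        exact ⟨a2, by linarith⟩
      exact intermediate_value_Icc' hσ.1 hHc this
  obtain ⟨ρ, hρ, hHρ⟩ := hex
  have hρ1 : ρ ∈ Icc (0:ℝ) 1 := ⟨hρ.1, hρ.2.trans hσ.2⟩
  -- the characteristic from `r ρ`
  have hline := line_psi h (hrΩ ρ hρ1)
  have hr1 : (r ρ).1 = (1 - ρ) * p.1 := by simp [hr]; ring
  have hr2 : (r ρ).2 = p.2 + 2 * ρ * p.1 := by simp [hr]; ring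
  rcases hρ.2.eq_or_lt with hρσ | hρσ
  · -- degenerate: the point is on the slope -2 line
    have e : p + σ • ((-p.1, c * (-p.1)) : ℝ × ℝ) = r ρ := by
      simp only [hH, hρσ] at hHρ
      ext
      · rw [hr1, hρσ]; simp; ring
      · rw [hr2, hρσ]; simp; linear_combination (-p.1) * hHρ
    rw [e]
    exact hrΩ ρ hρ1
  · have h1ρ : 0 < 1 - ρ := by linarith [hσ.2]
    have hu : (σ - ρ) / (1 - ρ) ∈ Icc (0:ℝ) 1 :=
      ⟨div_nonneg (by linarith) h1ρ.le, by rw [div_le_one h1ρ]; linarith [hσ.2]⟩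
    have e : p + σ • ((-p.1, c * (-p.1)) : ℝ × ℝ) =
        r ρ + ((σ - ρ) / (1 - ρ)) • ((-(r ρ).1, (2 + Psi Φ (r ρ)) * (-(r ρ).1)) : ℝ × ℝ) := by
      simp only [hH, hcc] at hHρ
      ext
      · simp only [Prod.fst_add, Prod.smul_fst, smul_eq_mul]
        rw [hr1]; field_simp; ring
      · simp only [Prod.snd_add, Prod.smul_snd, smul_eq_mul]
        rw [hr1, hr2]
        field_simp
        linear_combination (-p.1) * hHρ
    rw [e]
    exact hline _ hu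

end

end Pool.Agent.X19.MG
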