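import Mathlib
import Pool.Agent.X19.MG.Basic

open Set Filter Topology Matrix
open scoped ContDiff

namespace Pool.Agent.X19.MG

section
variable {φ0 φ1 : ℝ → ℝ} {Ω Ω1 Ω2 : Set (ℝ × ℝ)} {Φ Φ1 Φ2 : ℝ × ℝ → ℝ}

lemma phi_hasFD (h : IsGHD φ0 φ1 Ω Φ) {p : ℝ × ℝ} (hp : p ∈ Ω) :
    HasFDerivAt Φ (fderiv ℝ Φ p) p :=
  ((h.smooth.contDiffAt (h.isOpen.mem_nhds hp)).differentiableAt (by simp)).hasFDerivAt

lemma psi_zero (h : IsGHD φ0 φ1 Ω Φ) (y : ℝ) : Psi Φ (0, y) = φ1 y - 2 * deriv φ0 y := by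
  unfold Psi
  rw [h.data1]
  congr 2
  unfold dx
  have h1 : HasDerivAt (fun y : ℝ => ((0:ℝ), y)) (0, 1) y :=
    (hasDerivAt_const y (0:ℝ)).prodMk (hasDerivAt_id y)
  have h2 := (phi_hasFD h (h.init y)).comp_hasDerivAt y h1
  have h3 : (Φ ∘ fun y : ℝ => ((0:ℝ), y)) = φ0 := by
    funext z
    exact h.data0 z
  rw [h3] at h2
  exact h2.deriv.symm

lemma psi_foot (h : IsGHD φ0 φ1 Ω Φ) {p : ℝ × ℝ} (hp : p ∈ Ω) :
    Psi Φ (0, p.2 + (2 + Psi Φ p) * (-p.1)) = Psi Φ p := by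
  have h1 := psi_const h rfl (line_psi h hp) 1 ⟨zero_le_one, le_rfl⟩
  rw [one_smul] at h1
  have e : p + ((-p.1, (2 + Psi Φ p) * (-p.1)) : ℝ × ℝ) =
      (0, p.2 + (2 + Psi Φ p) * (-p.1)) := by
    ext <;> simp
  rwa [e] at h1

lemma same_sign (h : IsGHD φ0 φ1 Ω Φ) (y1 y2 : ℝ) :
    0 < (4 + Psi Φ (0, y1)) * (4 + Psi Φ (0, y2)) := by
  have hc : Continuous fun y : ℝ => 4 + Psi Φ (0, y) := by
    have h1 : Continuous fun y : ℝ => Psi Φ (0, y) := by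
      rw [← continuousOn_univ]
      exact (psi_cont h).comp (by fun_prop) (fun y _ => h.init y)
    fun_prop
  have hne : ∀ y : ℝ, 4 + Psi Φ (0, y) ≠ 0 := fun y h0 =>
    h.nondeg _ (h.init y) (by linarith)
  by_contra hcon
  push Not at hcon
  have h0 : (0:ℝ) ∈ range fun y : ℝ => 4 + Psi Φ (0, y) := by
    rcases le_total 0 (4 + Psi Φ (0, y1)) with h1 | h1
    · have h1' : 0 < 4 + Psi Φ (0, y1) := lt_of_le_of_ne h1 (hne y1).symm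
      have h2 : 4 + Psi Φ (0, y2) ≤ 0 := by
        by_contra h3
        push Not at h3
        have := mul_pos h1' h3
        linarith
      exact mem_range_of_exists_le_of_exists_ge hc ⟨y2, h2⟩ ⟨y1, h1⟩
    · have h1' : 4 + Psi Φ (0, y1) < 0 := lt_of_le_of_ne h1 (hne y1)
      have h2 : 0 ≤ 4 + Psi Φ (0, y2) := by
        by_contra h3
        push Not at h3
        have := mul_pos_of_neg_of_neg h1' h3
        linarith
      exact mem_range_of_exists_le_of_exists_ge hc ⟨y1, h1⟩ ⟨y2, h2⟩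
  obtain ⟨y, hy⟩ := h0
  exact hne y hy

lemma psi_agree_aux (h1 : IsGHD φ0 φ1 Ω1 Φ1) (h2 : IsGHD φ0 φ1 Ω2 Φ2) {p : ℝ × ℝ}
    (hp1 : p ∈ Ω1) (hp2 : p ∈ Ω2) (hpos : 0 < (4 + Psi Φ1 p) * (4 + Psi Φ2 p))
    (hle : |4 + Psi Φ2 p| ≤ |4 + Psi Φ1 p|) : Psi Φ1 p = Psi Φ2 p := by
  have hne : 4 + Psi Φ1 p ≠ 0 := fun h0 => by rw [h0, zero_mul] at hpos; exact lt_irrefl _ hpos
  set c := 2 + Psi Φ2 p with hc
  set θ := (4 + Psi Φ2 p) / (4 + Psi Φ1 p) with hθ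
  have hθ0 : 0 ≤ θ := by
    rw [hθ, div_nonneg_iff]
    rcases lt_or_gt_of_ne hne with h | h
    · right; constructor
      · by_contra hh; push Not at hh; have := mul_neg_of_neg_of_pos h hh; linarith
      · exact h.le
    · left; constructor
      · by_contra hh; push Not at hh; have := mul_neg_of_pos_of_neg h hh; linarith
      · exact h.le
  have hθ1 : θ ≤ 1 := by
    have h3 : |θ| ≤ 1 := by
      rw [hθ, abs_div, div_le_one (abs_pos.2 hne)]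
      exact hle
    exact (le_abs_self θ).trans h3
  have htri := triangle h1 hp1 (c := c) ⟨hθ0, hθ1⟩ (by rw [hθ, hc]; field_simp; ring)
  set y := p.2 + c * (-p.1) with hy
  have hfoot : Psi Φ1 (0, y) = Psi Φ2 p := by
    have h3 := psi_foot h2 hp2
    rw [← hc] at h3
    rw [psi_zero h1, ← psi_zero h2]
    exact h3
  have hconst := psi_const h1 (p := (0, y)) (T := p.1) (c := c) (by rw [hfoot, hc]) (by
    intro s hs
    have h4 := htri (1 - s) ⟨by linarith [hs.2], by linarith [hs.1]⟩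
    have e : ((0:ℝ), y) + s • ((p.1, c * p.1) : ℝ × ℝ) =
        p + (1 - s) • ((-p.1, c * (-p.1)) : ℝ × ℝ) := by
      ext
      · simp; ring
      · simp [hy]; ring
    rw [e]
    exact h4) 1 ⟨zero_le_one, le_rfl⟩
  have e : ((0:ℝ), y) + (1:ℝ) • ((p.1, c * p.1) : ℝ × ℝ) = p := by
    ext
    · simp
    · simp [hy]
  rw [e, hfoot] at hconst
  exact hconst

lemma psi_agree (h1 : IsGHD φ0 φ1 Ω1 Φ1) (h2 : IsGHD φ0 φ1 Ω2 Φ2) {p : ℝ × ℝ}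
    (hp1 : p ∈ Ω1) (hp2 : p ∈ Ω2) : Psi Φ1 p = Psi Φ2 p := by
  have hpos : 0 < (4 + Psi Φ1 p) * (4 + Psi Φ2 p) := by
    have e1 := psi_foot h1 hp1
    have e2 := psi_foot h2 hp2
    rw [psi_zero h2, ← psi_zero h1] at e2
    rw [← e1, ← e2]
    exact same_sign h1 _ _
  rcases le_total |4 + Psi Φ2 p| |4 + Psi Φ1 p| with h | h
  · exact psi_agree_aux h1 h2 hp1 hp2 hpos h
  · exact (psi_agree_aux h2 h1 hp2 hp1 (by linarith) h).symm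

lemma phi_agree (h1 : IsGHD φ0 φ1 Ω1 Φ1) (h2 : IsGHD φ0 φ1 Ω2 Φ2) {p : ℝ × ℝ}
    (hp1 : p ∈ Ω1) (hp2 : p ∈ Ω2) : Φ1 p = Φ2 p := by
  set w : ℝ × ℝ := (-p.1, (-2) * (-p.1)) with hw
  have hline : ∀ s : ℝ, HasDerivAt (fun s : ℝ => p + s • w) w s := fun s => by
    have h1 := ((hasDerivAt_id s).smul_const w).const_add p
    rw [one_smul] at h1
    exact h1
  have hd : ∀ {Ω : Set (ℝ × ℝ)} {Φ : ℝ × ℝ → ℝ}, IsGHD φ0 φ1 Ω Φ → p ∈ Ω →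
      ∀ s ∈ Icc (0:ℝ) 1, HasDerivAt (fun s => Φ (p + s • w)) (-p.1 * Psi Φ (p + s • w)) s := by
    intro Ω Φ h hp s hs
    have hm := line_two h hp s hs
    have h3 := (phi_hasFD h hm).comp_hasDerivAt s (hline s)
    have e : fderiv ℝ Φ (p + s • w) w = -p.1 * Psi Φ (p + s • w) := by
      have ev : w = (-p.1) • ((1, 0) : ℝ × ℝ) + (-2 * (-p.1)) • ((0, 1) : ℝ × ℝ) := by
        rw [hw]; ext <;> simp
      unfold Psi dt dx
      rw [show fderiv ℝ Φ (p + s • w) w = fderiv ℝ Φ (p + s • w)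
        ((-p.1) • ((1, 0) : ℝ × ℝ) + (-2 * (-p.1)) • ((0, 1) : ℝ × ℝ)) by rw [← ev],
        map_add, map_smul, map_smul, smul_eq_mul, smul_eq_mul]
      ring
    rw [← hw] at h3
    rw [e] at h3
    exact h3
  have hc := constant_of_has_deriv_right_zero (a := 0) (b := 1)
    (f := fun s => Φ1 (p + s • w) - Φ2 (p + s • w))
    (fun s hs => ((hd h1 hp1 s hs).sub (hd h2 hp2 s hs)).continuousAt.continuousWithinAt)
    (fun s hs => by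
      have hs' : s ∈ Icc (0:ℝ) 1 := ⟨hs.1, hs.2.le⟩
      have h3 := (hd h1 hp1 s hs').sub (hd h2 hp2 s hs')
      rw [psi_agree h1 h2 (line_two h1 hp1 s hs') (line_two h2 hp2 s hs'), sub_self] at h3
      exact h3.hasDerivWithinAt) 1 ⟨zero_le_one, le_rfl⟩
  simp only [one_smul, zero_smul, add_zero] at hc
  have e : p + w = (0, p.2 + 2 * p.1) := by
    rw [hw]; ext <;> simp
  rw [e, h1.data0, h2.data0, sub_self] at hc
  linarith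

/-- the union of all developments -/
def OmM (φ0 φ1 : ℝ → ℝ) : Set (ℝ × ℝ) := {p | ∃ (Ω : Set (ℝ × ℝ)) (Φ : ℝ × ℝ → ℝ),
  IsGHD φ0 φ1 Ω Φ ∧ p ∈ Ω}

open Classical in
noncomputable def PhM (φ0 φ1 : ℝ → ℝ) (p : ℝ × ℝ) : ℝ :=
  if h : ∃ (Ω : Set (ℝ × ℝ)) (Φ : ℝ × ℝ → ℝ), IsGHD φ0 φ1 Ω Φ ∧ p ∈ Ω then
    h.choose_spec.choose p else 0

lemma PhM_eq (h : IsGHD φ0 φ1 Ω Φ) : EqOn (PhM φ0 φ1) Φ Ω := by
  intro p hp
  have hex : ∃ (Ω : Set (ℝ × ℝ)) (Φ : ℝ × ℝ → ℝ), IsGHD φ0 φ1 Ω Φ ∧ p ∈ Ω := ⟨Ω, Φ, h, hp⟩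
  unfold PhM
  rw [dif_pos hex]
  have hs := hex.choose_spec.choose_spec
  exact phi_agree hs.1 h hs.2 hp

lemma sub_OmM (h : IsGHD φ0 φ1 Ω Φ) : Ω ⊆ OmM φ0 φ1 := fun p hp => ⟨Ω, Φ, h, hp⟩

lemma dt_congr {F G : ℝ × ℝ → ℝ} {p : ℝ × ℝ} (h : F =ᶠ[𝓝 p] G) : dt F =ᶠ[𝓝 p] dt G := by
  filter_upwards [h.fderiv (𝕜 := ℝ)] with q hq
  unfold dt
  rw [hq]

lemma dx_congr {F G : ℝ × ℝ → ℝ} {p : ℝ × ℝ} (h : F =ᶠ[𝓝 p] G) : dx F =ᶠ[𝓝 p] dx G := by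
  filter_upwards [h.fderiv (𝕜 := ℝ)] with q hq
  unfold dx
  rw [hq]

lemma psi_congr {F G : ℝ × ℝ → ℝ} {p : ℝ × ℝ} (h : F =ᶠ[𝓝 p] G) : Psi F p = Psi G p := by
  unfold Psi
  rw [(dt_congr h).eq_of_nhds, (dx_congr h).eq_of_nhds]

lemma causal_fst_ne {ψ : ℝ} (hψ : ψ ≠ -4) {v : ℝ × ℝ} (h : Causal ψ v) : v.1 ≠ 0 := by
  rw [causal_iff hψ] at h
  intro h0
  obtain ⟨h1, h2⟩ := h
  apply h1
  rw [h0] at h2
  have h3 : v.2 = 0 := by nlinarith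
  ext
  · exact h0
  · exact h3

theorem union_isGHD (hex : ∃ (Ω : Set (ℝ × ℝ)) (Φ : ℝ × ℝ → ℝ), IsGHD φ0 φ1 Ω Φ) :
    IsGHD φ0 φ1 (OmM φ0 φ1) (PhM φ0 φ1) := by
  obtain ⟨Ωa, Φa, ha⟩ := hex
  have hev : ∀ {Ω : Set (ℝ × ℝ)} {Φ : ℝ × ℝ → ℝ}, IsGHD φ0 φ1 Ω Φ → ∀ p ∈ Ω,
      PhM φ0 φ1 =ᶠ[𝓝 p] Φ := by
    intro Ω Φ h p hp
    filter_upwards [h.isOpen.mem_nhds hp] with q hq
    exact PhM_eq h hq
  refine ⟨?_, ?_, ?_, ?_, ?_, ?_, ?_, ?_⟩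
  · rw [isOpen_iff_mem_nhds]
    rintro p ⟨Ω, Φ, h, hp⟩
    exact mem_of_superset (h.isOpen.mem_nhds hp) (sub_OmM h)
  · intro x
    exact sub_OmM ha (ha.init x)
  · rintro p ⟨Ω, Φ, h, hp⟩
    have h1 : ContDiffAt ℝ ∞ Φ p := h.smooth.contDiffAt (h.isOpen.mem_nhds hp)
    exact (h1.congr_of_eventuallyEq (hev h p hp)).contDiffWithinAt
  · rintro p ⟨Ω, Φ, h, hp⟩
    have e := hev h p hp
    rw [psi_congr e, (dt_congr (dt_congr e)).eq_of_nhds, (dt_congr (dx_congr e)).eq_of_nhds,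
      (dx_congr (dx_congr e)).eq_of_nhds]
    exact h.eqn p hp
  · rintro p ⟨Ω, Φ, h, hp⟩
    rw [psi_congr (hev h p hp)]
    exact h.nondeg p hp
  · intro x
    rw [PhM_eq ha (ha.init x), ha.data0]
  · intro x
    rw [(dt_congr (hev ha _ (ha.init x))).eq_of_nhds, ha.data1]
  · intro I γ γ' hI
    have hγc : ContinuousOn γ I := fun s hs => (hI.deriv s hs).continuousAt.continuousWithinAt
    obtain ⟨s0, hs0⟩ := hI.nonempty
    obtain ⟨Ω, Φ, h, hp⟩ := hI.mem s0 hs0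
    set J := connectedComponentIn (I ∩ γ ⁻¹' Ω) s0 with hJ
    have hUo : IsOpen (I ∩ γ ⁻¹' Ω) := hγc.isOpen_inter_preimage hI.isOpen h.isOpen
    have hJU : J ⊆ I ∩ γ ⁻¹' Ω := connectedComponentIn_subset _ _
    have hJs : s0 ∈ J := mem_connectedComponentIn ⟨hs0, hp⟩
    have hcur : InextCausal Ω Φ J γ γ' := by
      refine ⟨hUo.connectedComponentIn, isPreconnected_connectedComponentIn.ordConnected,
        ⟨s0, hJs⟩, fun s hs => (hJU hs).2, fun s hs => hI.deriv s (hJU hs).1,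
        hI.cont.mono fun s hs => (hJU hs).1, ?_, ?_, ?_⟩
      · intro s hs
        have := hI.causal s (hJU hs).1
        rwa [psi_congr (hev h _ (hJU hs).2)] at this
      · rintro ⟨q, hq, ht⟩
        exact hI.noTop ⟨q, sub_OmM h hq,
          comp_top hI.isOpen hI.ordConn hγc h.isOpen hs0 hp hq ht⟩
      · rintro ⟨q, hq, ht⟩
        exact hI.noBot ⟨q, sub_OmM h hq,
          comp_bot hI.isOpen hI.ordConn hγc h.isOpen hs0 hp hq ht⟩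
    obtain ⟨s, ⟨hsJ, hs⟩, -⟩ := h.cauchy J γ γ' hcur
    refine ⟨s, ⟨(hJU hsJ).1, hs⟩, ?_⟩
    -- uniqueness by Rolle
    have hinj : ∀ a ∈ I, ∀ b ∈ I, a < b → (γ a).1 = 0 → (γ b).1 = 0 → False := by
      intro a haI b hbI hab ha0 hb0
      have hsub : Icc a b ⊆ I := hI.ordConn.out haI hbI
      obtain ⟨c, hc, hc0⟩ := exists_hasDerivAt_eq_zero (f := fun s => (γ s).1)
        (f' := fun s => (γ' s).1) hab
        (fun x hx => (continuous_fst.continuousAt.comp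
          (hI.deriv x (hsub hx)).continuousAt).continuousWithinAt)
        (by rw [ha0, hb0])
        (fun x hx => (hI.deriv x (hsub (Ioo_subset_Icc_self hx))).fst)
      have hcI := hsub (Ioo_subset_Icc_self hc)
      obtain ⟨Ω', Φ', h', hp'⟩ := hI.mem c hcI
      have hnd : Psi (PhM φ0 φ1) (γ c) ≠ -4 := by
        rw [psi_congr (hev h' _ hp')]
        exact h'.nondeg _ hp'
      exact causal_fst_ne hnd (hI.causal c hcI) hc0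
    rintro s' ⟨hs'I, hs'0⟩
    rcases lt_trichotomy s' s with hlt | heq | hlt
    · exact (hinj s' hs'I s (hJU hsJ).1 hlt hs'0 hs).elim
    · exact heq
    · exact (hinj s (hJU hsJ).1 s' hs'I hlt hs hs'0).elim

theorem mghd_unique (h1 : IsMGHD φ0 φ1 Ω1 Φ1) (h2 : IsMGHD φ0 φ1 Ω2 Φ2) :
    Ω1 = Ω2 ∧ EqOn Φ1 Φ2 Ω1 := by
  have hU := union_isGHD ⟨Ω1, Φ1, h1.1⟩
  have e1 := h1.2 _ _ hU (sub_OmM h1.1) (PhM_eq h1.1)
  have e2 := h2.2 _ _ hU (sub_OmM h2.1) (PhM_eq h2.1)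
  have e : Ω1 = Ω2 := e1.symm.trans e2
  refine ⟨e, fun p hp => phi_agree h1.1 h2.1 hp (e ▸ hp)⟩

theorem mghd_exists (hex : ∃ (Ω : Set (ℝ × ℝ)) (Φ : ℝ × ℝ → ℝ), IsGHD φ0 φ1 Ω Φ) :
    ∃ (Ω : Set (ℝ × ℝ)) (Φ : ℝ × ℝ → ℝ), IsMGHD φ0 φ1 Ω Φ ∧
      ∀ (Ω' : Set (ℝ × ℝ)) (Φ' : ℝ × ℝ → ℝ), IsGHD φ0 φ1 Ω' Φ' → Ω' ⊆ Ω ∧ EqOn Φ Φ' Ω' := by
  refine ⟨OmM φ0 φ1, PhM φ0 φ1, ⟨union_isGHD hex, ?_⟩, fun Ω' Φ' h' => ⟨sub_OmM h', PhM_eq h'⟩⟩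
  intro Ω' Φ' h' hsub _
  exact Subset.antisymm (sub_OmM h') hsub

end

end Pool.Agent.X19.MG
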